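import Pool.Agent.R611.HM.T11
import Pool.Agent.R611.HM.Def2

/-!
# 1-h-minimality implies omega-h-minimality, and power-bounded T-convex valued fields

Levels are elements of `ℕ∞`, with `⊤` standing for `ω`. The definitions of Hensel minimality are in
`Pool.Agent.R611.HM.Def` and `Pool.Agent.R611.HM.Def2`.
-/

set_option autoImplicit false

namespace Pool.Agent.Results.MP_e9d743_lc.OmegaFromOne

open FirstOrder Language Structure Pool.Agent.R611.HM

universe u

/-! ## Hensel minimality of theories -/

/-- `T` is a theory of non-trivially valued fields of equicharacteristic zero. -/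
def IsNontrivTheory {L : FirstOrder.Language.{u, u}} (sy : ValSymbols L) (T : L.Theory) : Prop :=
  ∀ (K : Type u) [L.Structure K] [Nonempty K], K ⊨ T →
    ∃ (_ : Field K) (O : ValuationSubring K), IsValued sy O ∧ O ≠ ⊤

/-- The theory `T` is `l`-h-minimal: all its models satisfy the condition `HMinNe`. -/
def HMinT {L : FirstOrder.Language.{u, u}} (sy : ValSymbols L) (T : L.Theory) (l : ℕ∞) : Prop :=
  ∀ (K : Type u) [L.Structure K] [Field K] (O : ValuationSubring K), K ⊨ T → IsValued sy O →
    HMinNe O L l

/-! ## Power-bounded o-minimal theories and T-convex subrings -/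

/-- The language `Lo` expands the ring language: symbols for addition and multiplication. (Zero,
one, the negative and the order are definable from them in a real closed field.) -/
structure RingSymbols (Lo : FirstOrder.Language.{u, u}) where
  /-- the symbol for addition -/
  add : Lo.Functions 2
  /-- the symbol for multiplication -/
  mul : Lo.Functions 2

/-- The `Lo`-structure `R` is an o-minimal expansion of a real closed field: the symbols of `ry` are
interpreted by addition and multiplication, the order is the one of the real closed field, and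
every subset of `R` definable with parameters is a finite union of points and open intervals (with
end points in `R ∪ {-∞, ∞}`). -/
structure IsOMin {Lo : FirstOrder.Language.{u, u}} (ry : RingSymbols Lo) (R : Type u)
    [Lo.Structure R] [Field R] [LinearOrder R] : Prop where
  add : ∀ x y : R, funMap ry.add ![x, y] = x + y
  mul : ∀ x y : R, funMap ry.mul ![x, y] = x * y
  ordered : IsStrictOrderedRing R
  closed : IsRealClosed R
  omin : ∀ X : Set R, (Set.univ : Set R).Definable₁ Lo X →
    ∃ F : Set (Set R), F.Finite ∧ X = ⋃₀ F ∧ ∀ I ∈ F, (∃ a, I = {a}) ∨ (∃ a b, I = Set.Ioo a b) ∨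
      (∃ a, I = Set.Ioi a) ∨ (∃ a, I = Set.Iio a) ∨ I = Set.univ

/-- `T` is a complete o-minimal `Lo`-theory extending the theory of real closed fields. -/
def IsOMinTheory {Lo : FirstOrder.Language.{u, u}} (ry : RingSymbols Lo) (T : Lo.Theory) : Prop :=
  T.IsComplete ∧ ∀ (R : Type u) [Lo.Structure R] [Nonempty R], R ⊨ T →
    ∃ (_ : Field R) (_ : LinearOrder R), IsOMin ry R

/-- `T` is power-bounded: in every model `R`, each definable `f : R → R` satisfies `|f x| ≤ P x` for
all sufficiently large `x`, for some definable endomorphism `P` of the multiplicative group of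
positive elements. -/
def PowerBounded {Lo : FirstOrder.Language.{u, u}} (ry : RingSymbols Lo) (T : Lo.Theory) : Prop :=
  ∀ (R : Type u) [Lo.Structure R] [Field R] [LinearOrder R], R ⊨ T → IsOMin ry R →
    ∀ f : R → R, (Set.univ : Set R).Definable₂ Lo {p | p.2 = f p.1} →
      ∃ P : R → R, (∀ x, 0 < x → 0 < P x) ∧
        (∀ x y, 0 < x → 0 < y → P (x * y) = P x * P y) ∧
        (Set.univ : Set R).Definable₂ Lo {p | 0 < p.1 ∧ p.2 = P p.1} ∧
        ∃ M : R, ∀ x, M < x → 0 < x → |f x| ≤ P x

/-- The valuation ring `O` of `R` is a `T`-convex subring, where `T` is the theory of `R`: it is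
convex, different from `R`, and closed under all continuous functions `R → R` that are definable
without parameters. -/
structure TConvex (Lo : FirstOrder.Language.{u, u}) {R : Type u}
    [Lo.Structure R] [Field R] [LinearOrder R] (O : ValuationSubring R) : Prop where
  convex : ∀ x y : R, 0 ≤ x → x ≤ y → y ∈ O → x ∈ O
  ne_top : O ≠ ⊤
  closed : ∀ f : R → R, (∅ : Set R).Definable₂ Lo {p | p.2 = f p.1} →
    (∀ x e, 0 < e → ∃ d, 0 < d ∧ ∀ y, |y - x| < d → |f y - f x| < e) → ∀ x ∈ O, f x ∈ O

/-- One unary relation symbol. -/
inductive ORel : ℕ → Type u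
  | ring : ORel 1

/-- The language with one unary relation symbol. -/
def OLang : FirstOrder.Language.{u, u} := ⟨fun _ => PEmpty, ORel⟩

/-- The unary relation symbol is interpreted by `O`. -/
@[reducible]
def oStructure {R : Type u} [Field R] (O : ValuationSubring R) : OLang.Structure R where
  funMap := fun f => PEmpty.elim f
  RelMap := fun {_} P x => match P, x with
    | ORel.ring, x => x 0 ∈ O

/-- The symbols of the language of valued fields in the language `Lo ∪ {O}`. -/
def RingSymbols.withO {Lo : FirstOrder.Language.{u, u}} (ry : RingSymbols Lo) :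
    ValSymbols (Lo.sum OLang.{u}) where
  add := Sum.inl ry.add
  mul := Sum.inl ry.mul
  ring := Sum.inr ORel.ring

/-! ## The proofs -/

section

variable {L : FirstOrder.Language.{u, u}} {K : Type u} [L.Structure K] [Field K]
  {O : ValuationSubring K} {sy : ValSymbols L}

/-- preparing sets can be enlarged by the point 0 -/
theorem hMinNe_of (hO : IsValued sy O) {l : ℕ∞} (h : HMinAt O L l) : HMinNe O L l := by
  intro lam h0 h1 A A' hA' hc X hX
  obtain ⟨C, hC, hCd, hCp⟩ := h lam h0 h1 A A' hA' hc X hX
  refine ⟨C ∪ {0}, hC.union (Set.finite_singleton 0), ⟨0, Or.inr rfl⟩, ?_, ?_⟩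
  · have h2 : Df L (fun w : Fin 1 → K => w 0 = 0) :=
      Df.eq (DfF.var 0) (hO.vf.fzero)
    have h3 : A.Definable L {w : Fin 1 → K | w 0 = 0} :=
      Set.Definable.mono h2 (Set.empty_subset A)
    exact Set.Definable.union hCd h3
  · intro x x' hx
    exact hCp x x' fun c hc => hx c (Or.inl hc)

theorem hMinAt_of {l : ℕ∞} (h : HMinNe O L l) : HMinAt O L l := by
  intro lam h0 h1 A A' hA' hc X hX
  obtain ⟨C, hC, _, hCd, hCp⟩ := h lam h0 h1 A A' hA' hc X hX
  exact ⟨C, hC, hCd, hCp⟩

theorem mono {l m : ℕ∞} (hl : l ≤ m) (h : HMinNe O L m) : HMinNe O L l :=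
  fun lam h0 h1 A A' hA' hc X hX => h lam h0 h1 A A' hA' (hc.trans hl) X hX

/-- the main step for the theory of a single valued field -/
theorem omega_of_one (_hO : IsValued sy O) (h : HMinTh sy K 1) : HMinTh sy K ⊤ := by
  intro K' _ _ O' hKK hO'
  obtain ⟨N, hNs, j, hN⟩ := exists_satur_extension (L := L) K'
  obtain ⟨hNf, O'', hO''⟩ := exists_valued j hO'
  have h1 : TH L O''.valuation 1 := TH1_of hN hO'' (hMinAt_of
    (h N O'' (hKK.trans j.elementarilyEquivalent) hO''))
  exact hMinNe_of hO' (hminAt_of_TH j hO' hO'' hN (TH_all hN hO''.vf h1) ⊤)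

end

theorem omega_iff_one {L : FirstOrder.Language.{u, u}} (sy : ValSymbols L) (T : L.Theory) :
    HMinT sy T ⊤ ↔ HMinT sy T 1 := by
  constructor
  · intro h K _ _ O hK hO
    exact mono le_top (h K O hK hO)
  · intro h K _ _ O hK hO
    refine omega_of_one (K := K) hO ?_ K O (show L.completeTheory K = L.completeTheory K from rfl) hO
    intro K' _ _ O' hKK hO'
    exact h K' O' ((hKK.theory_model_iff (T := T)).1 hK) hO'

/-- a convex valuation ring of an ordered field has residue characteristic zero -/
theorem isValued_of {Lo : FirstOrder.Language.{u, u}} {ry : RingSymbols Lo} {R : Type u}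
    [Lo.Structure R] [Field R] [LinearOrder R] (hR : IsOMin ry R) {O : ValuationSubring R}
    (hO : TConvex Lo O) :
    letI := oStructure O
    IsValued ry.withO O := by
  letI := oStructure O
  haveI := hR.ordered
  refine ⟨fun x y => hR.add x y, fun x y => hR.mul x y, fun x => Iff.rfl, ?_⟩
  refine charZero_of_inj_zero fun n hn => ?_
  by_contra hne
  have hn0 : (0 : R) < n := by exact_mod_cast Nat.pos_of_ne_zero hne
  have h1 : ((n : R)⁻¹) ∈ O := by
    refine hO.convex _ 1 (by positivity) ?_ O.one_mem
    have : (1 : R) ≤ n := by exact_mod_cast Nat.one_le_iff_ne_zero.2 hne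
    exact inv_le_one_of_one_le₀ this
  have h2 : (n : O) * ⟨(n : R)⁻¹, h1⟩ = 1 := by
    apply Subtype.ext
    show ((n : O) : R) * (n : R)⁻¹ = 1
    have h3 : ((n : O) : R) = n := by norm_cast
    rw [h3, mul_inv_cancel₀ hn0.ne']
  have h4 : IsLocalRing.residue O (n : O) = 0 := by
    rw [map_natCast]; exact hn
  have h5 := congrArg (IsLocalRing.residue O) h2
  rw [map_mul, h4, zero_mul, map_one] at h5
  exact zero_ne_one h5

/-- (1) For every theory `T` of non-trivially valued fields of equicharacteristic zero in a language
expanding the language of valued fields, `T` is ω-h-minimal if and only if it is 1-h-minimal.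
(2) In particular, for every power-bounded complete o-minimal theory `T` extending the theory of
real closed fields and every `T`-convex structure `(R, O)`, the theory of `(R, O)` is ω-h-minimal if
and only if it is 1-h-minimal. -/
theorem result :
    (∀ (L : FirstOrder.Language.{u, u}) (sy : ValSymbols L) (T : L.Theory),
      IsNontrivTheory sy T → (HMinT sy T ⊤ ↔ HMinT sy T 1)) ∧
    (∀ (Lo : FirstOrder.Language.{u, u}) (ry : RingSymbols Lo) (T : Lo.Theory),
      IsOMinTheory ry T → PowerBounded ry T →
      ∀ (R : Type u) [Lo.Structure R] [Field R] [LinearOrder R], R ⊨ T → IsOMin ry R →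
      ∀ O : ValuationSubring R, TConvex Lo O →
        letI := oStructure O
        HMinTh ry.withO R ⊤ ↔ HMinTh ry.withO R 1) := by
  refine ⟨fun L sy T _ => omega_iff_one sy T, ?_⟩
  intro Lo ry T _ _ R _ _ _ _ hR O hO
  letI := oStructure O
  refine ⟨fun h K' _ _ O' hKK hO' => mono le_top (h K' O' hKK hO'), fun h => ?_⟩
  exact omega_of_one (isValued_of hR hO) h

end Pool.Agent.Results.MP_e9d743_lc.OmegaFromOne
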